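import Pool.Agent.Lib_helper41.TK.W.TE
import Pool.Agent.Lib_helper68.KSLF.HGN

/-! TK, block TJ. -/

set_option autoImplicit false

namespace Pool.Agent.TK

open Pool.Agent.LEV Pool.Agent.LVB Pool.Agent.KSL
open Pool.Agent.LK (PQ)
open Pool.Agent.FG61 (mu phi cc ff AA Lam)
open Complex MeasureTheory Filter Topology UpperHalfPlane ModularGroup ProbabilityTheory
open scoped MatrixGroups Modular ENNReal ModularForm ComplexConjugate ContDiff

open Classical in
/-- the terms of `cnC` are summable -/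
theorem tj_summable {q z A : ℕ} {a : ℕ → ℝ}
    (ha : ∀ k, a k ≠ 0 → smooth z k ∧ k ≤ A ∧ k.Coprime q) :
    Summable (fun m : ℕ => if smooth z m ∧ m.Coprime q then Ph A a m ^ 2 / m else 0) := by
  obtain ⟨hsum, -⟩ := phi_al (z := z) (A := A) (a := a) fun k hk => ⟨(ha k hk).1, (ha k hk).2.1⟩
  refine Summable.of_nonneg_of_le (fun m => ?_) (fun m => ?_) hsum
  · split_ifs <;> positivity
  · by_cases h1 : smooth z m
    · rw [if_pos h1]
      split_ifs <;> first | exact le_rfl | positivity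
    · rw [if_neg h1, if_neg fun h => h1 h.1]

open Classical in
theorem tj_main {δ : ℝ} (h0 : 0 < δ) (h1 : δ < 1 / 4) {ε : ℝ} (hε : 0 < ε) (C₀ C₁ : ℝ) :
    ∃ N₀ : ℕ, ∀ n : ℕ, N₀ ≤ n → ∀ q : ℕ, 1 ≤ q → ∀ (A : ℕ) (a : ℕ → ℝ),
      (∀ k, a k ≠ 0 → smooth (zz n) k ∧ k ≤ A ∧ k.Coprime q) → cnC q (zz n) A a ≤ C₀ →
      ∀ h : ℕ → ℝ, (∀ m, 0 ≤ h m ∧ h m ≤ 1 ∧ h m * m ^ 2 ≤ C₁ * n) →
        Summable (fun m : ℕ => if m.Coprime q then
          WW (QA (MM δ n) 2 A) (wAC q (zz n) (MM δ n) 2 A a) m ^ 2 * h m / m else 0) ∧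
        ∑' m : ℕ, (if m.Coprime q then
          WW (QA (MM δ n) 2 A) (wAC q (zz n) (MM δ n) 2 A a) m ^ 2 * h m / m else 0) ≤
          (1 / 2 + 1 / (1 - 2 * δ)) * cnC q (zz n) A a + ε := by
  set C := max C₁ 1 with hC
  have hC1 : 1 ≤ C := le_max_right _ _
  set c := Real.log C / 2 with hc
  have hc0 : 0 ≤ c := by rw [hc]; exact div_nonneg (Real.log_nonneg hC1) (by norm_num)
  set E := 3 * c + 19 with hE
  have hE0 : 0 < E := by positivity
  set et := min 1 (ε / (E * (|C₀| + 1))) with het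
  have het0 : 0 < et := lt_min one_pos (by positivity)
  have het1 : et ≤ 1 := min_le_left _ _
  have hetE : E * et * |C₀| ≤ ε := by
    have g : et ≤ ε / (E * (|C₀| + 1)) := min_le_right _ _
    rw [le_div_iff₀ (by positivity)] at g
    nlinarith [mul_pos hE0 het0, abs_nonneg C₀]
  obtain ⟨N₁, hN₁⟩ := wr_sq h0 h1 het0
  obtain ⟨N₂, hN₂⟩ := sizes h0 h1 het0
  refine ⟨max N₁ N₂, fun N hN q hq A a ha hcn h hh => ?_⟩
  obtain ⟨s1, s2, s3, s4, s5, s6, s7, s8, s9⟩ := hN₂ N (le_trans (le_max_right _ _) hN)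
  have hsq := hN₁ N (le_trans (le_max_left _ _) hN)
  set z := zz N with hz
  set M := MM δ N with hMM
  have hM2 : 2 ≤ M := by omega
  have hN0 : (0 : ℝ) < N := by exact_mod_cast (by omega : 0 < N)
  have hN1 : (1 : ℝ) ≤ N := by exact_mod_cast (by omega : 1 ≤ N)
  have hM1 : (1 : ℝ) ≤ M := by exact_mod_cast (by omega : 1 ≤ M)
  set K := C * N with hK
  have hK0 : 0 ≤ K := by positivity
  have hKN : (N : ℝ) ≤ K := by rw [hK]; nlinarith
  set R := ⌊Real.sqrt K⌋₊ with hR
  have hMR : M ≤ R := by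
    rw [hMM, hR]
    unfold MM
    refine Nat.floor_le_floor ?_
    calc (N : ℝ) ^ (1 / 2 - δ) ≤ (N : ℝ) ^ (1 / 2 : ℝ) :=
          Real.rpow_le_rpow_of_exponent_le hN1 (by linarith)
      _ = Real.sqrt N := by rw [Real.sqrt_eq_rpow]
      _ ≤ Real.sqrt K := Real.sqrt_le_sqrt hKN
  have hR1 : (1 : ℝ) ≤ R := by exact_mod_cast (by omega : 1 ≤ R)
  have hKR : K ≤ 4 * (R : ℝ) ^ 2 := by
    have g : Real.sqrt K ≤ 2 * R := by
      have := Nat.lt_floor_add_one (Real.sqrt K)
      rw [← hR] at this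
      linarith
    calc K = Real.sqrt K ^ 2 := (Real.sq_sqrt hK0).symm
      _ ≤ (2 * R) ^ 2 := pow_le_pow_left₀ (Real.sqrt_nonneg _) g 2
      _ = 4 * (R : ℝ) ^ 2 := by ring
  have hlR : Real.log R ≤ Real.log N / 2 + c := by
    calc Real.log R ≤ Real.log (Real.sqrt K) :=
          Real.log_le_log (by linarith) (Nat.floor_le (Real.sqrt_nonneg _))
      _ = Real.log K / 2 := Real.log_sqrt hK0
      _ = Real.log N / 2 + c := by
          rw [hK, Real.log_mul (by positivity) (by positivity), hc]; ring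
  have hlMR : Real.log M ≤ Real.log R := Real.log_le_log (by linarith) (by exact_mod_cast hMR)
  have hLet : 1 / et ≤ Real.log M := by
    refine s5.trans (Real.log_le_log (by exact_mod_cast (by omega : 0 < z)) ?_)
    exact_mod_cast s3.le
  set κ := 1 + (Real.log M ^ 2 / 2 + Real.log M + (1 + et * Real.log M) * (1 + Real.log M) +
        (Real.log M + 1 + et * Real.log M) * (Real.log R - Real.log M + 2)) /
          Real.log M ^ 2 with hκ
  have hκ1 : κ ≤ 1 / 2 + 1 / (1 - 2 * δ) + E * et :=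
    HGN_num h0 h1 het0 het1 hLet hc0 s7 hlR hlMR
  have hL0 : 0 < Real.log M := lt_of_lt_of_le (by positivity) hLet
  have hκ0 : 0 ≤ κ := by
    have : 0 ≤ (Real.log M + 1 + et * Real.log M) * (Real.log R - Real.log M + 2) :=
      mul_nonneg (by positivity) (by linarith)
    positivity
  have hsum := tj_summable (q := q) (z := z) (A := A) (a := a) ha
  have ha' : ∀ k, a k ≠ 0 → smooth z k ∧ k ≤ A := fun k hk => ⟨(ha k hk).1, (ha k hk).2.1⟩
  have hcn0 : 0 ≤ cnC q z A a := by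
    unfold cnC
    exact tsum_nonneg fun m => by split_ifs <;> positivity
  have hh' : ∀ n, 0 ≤ h n ∧ h n ≤ 1 ∧ h n * n ^ 2 ≤ K := fun n => by
    obtain ⟨g1, g2, g3⟩ := hh n
    refine ⟨g1, g2, g3.trans ?_⟩
    rw [hK]
    exact mul_le_mul_of_nonneg_right (le_max_left _ _) hN0.le
  set T : ℕ → ℝ := fun m => if m.Coprime q then
    WW (QA M 2 A) (wAC q z M 2 A a) m ^ 2 * h m / m else 0 with hT
  have hT0 : ∀ n, 0 ≤ T n := fun n => by
    simp only [hT]
    split_ifs
    · exact div_nonneg (mul_nonneg (sq_nonneg _) (hh n).1) (Nat.cast_nonneg _)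
    · exact le_rfl
  have hWW : ∀ n, 1 ≤ n → n.Coprime q →
      WW (QA M 2 A) (wAC q z M 2 A a) n = Ph A a n * Wr z M 2 n := by
    intro n hn hnq
    exact ww_factorC ha (by norm_num) hn hnq
  set F : ℕ → ℕ → ℝ := fun m r => (if m.Coprime q then Ph A a m ^ 2 / m else 0) *
        (Wr z M 2 r ^ 2 * h (m * r) / r) with hF
  have hF0 : ∀ m r, 0 ≤ F m r := fun m r => by
    have := (hh (m * r)).1
    simp only [hF]
    split_ifs <;> positivity
  have hfin : ∀ X : ℕ, ∑ n ∈ Finset.Icc 1 X, T n ≤ κ * cnC q z A a := by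
    intro X
    have e1 : ∀ n ∈ Finset.Icc 1 X, T n ≤ F (smp z n) (rop z n) := by
      intro n hn
      rw [Finset.mem_Icc] at hn
      by_cases hnq : n.Coprime q
      · have g1 := (smp_rop (z := z) hn.1).1
        have g0 : (smp z n).Coprime q := Nat.Coprime.coprime_dvd_left ⟨rop z n, g1.symm⟩ hnq
        simp only [hT, hF]
        rw [if_pos hnq, if_pos g0, hWW n hn.1 hnq, ph_smp ha' hn.1, wr_rop z M 2 hn.1]
        have g2 : (n : ℝ) = (smp z n : ℝ) * (rop z n : ℝ) := by rw [← Nat.cast_mul, g1]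
        rw [g1, g2]
        rw [div_mul_div_comm]
        refine le_of_eq ?_
        congr 1
        ring
      · have : T n = 0 := by simp only [hT]; rw [if_neg hnq]
        rw [this]
        exact hF0 _ _
    refine (Finset.sum_le_sum e1).trans ?_
    calc _ ≤ ∑ m ∈ (Finset.Icc 1 X).filter (fun m => smooth z m),
        ∑ r ∈ (Finset.Icc 1 X).filter (fun r => rough z r), F m r := HGN_split (F := F) hF0
      _ ≤ ∑ m ∈ (Finset.Icc 1 X).filter (fun m => smooth z m),
          (if m.Coprime q then Ph A a m ^ 2 / m else 0) * κ := by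
          refine Finset.sum_le_sum fun m hm => ?_
          rw [Finset.mem_filter, Finset.mem_Icc] at hm
          simp only [hF]
          rw [← Finset.mul_sum]
          refine mul_le_mul_of_nonneg_left ?_ (by split_ifs <;> positivity)
          exact HGN_inner hM2 hMR het0.le hK0 hKR hsq hh' hm.1.1
      _ = κ * ∑ m ∈ Finset.Icc 1 X, (if smooth z m ∧ m.Coprime q then Ph A a m ^ 2 / m else 0) := by
          rw [← Finset.sum_mul, Finset.sum_filter, mul_comm]
          congr 1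
          refine Finset.sum_congr rfl fun m _ => ?_
          by_cases g1 : smooth z m <;> by_cases g2 : m.Coprime q <;> simp [g1, g2]
      _ ≤ κ * cnC q z A a := by
          refine mul_le_mul_of_nonneg_left ?_ hκ0
          unfold cnC
          exact hsum.sum_le_tsum _ fun m _ => by split_ifs <;> positivity
  have hfin2 : ∀ X : ℕ, ∑ n ∈ Finset.range X, T n ≤ κ * cnC q z A a := by
    intro X
    refine le_trans ?_ (hfin X)
    have e2 : ∑ n ∈ (Finset.range X).filter (fun n => 1 ≤ n), T n = ∑ n ∈ Finset.range X, T n := by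
      refine Finset.sum_filter_of_ne fun n _ hn => ?_
      rcases Nat.eq_zero_or_pos n with g | g
      · subst g; simp [hT] at hn
      · exact g
    rw [← e2]
    refine Finset.sum_le_sum_of_subset_of_nonneg ?_ fun n _ _ => hT0 n
    intro n hn
    rw [Finset.mem_filter, Finset.mem_range] at hn
    rw [Finset.mem_Icc]; omega
  refine ⟨summable_of_sum_range_le hT0 hfin2, ?_⟩
  refine (Real.tsum_le_of_sum_range_le hT0 hfin2).trans ?_
  calc κ * cnC q z A a ≤ (1 / 2 + 1 / (1 - 2 * δ) + E * et) * cnC q z A a :=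
        mul_le_mul_of_nonneg_right hκ1 hcn0
    _ = (1 / 2 + 1 / (1 - 2 * δ)) * cnC q z A a + E * et * cnC q z A a := by ring
    _ ≤ _ := by
        have g : E * et * cnC q z A a ≤ E * et * |C₀| :=
          mul_le_mul_of_nonneg_left (hcn.trans (le_abs_self _)) (by positivity)
        linarith

/-- the sum over the Fourier coefficients high up -/
theorem high_genC {δ : ℝ} (h0 : 0 < δ) (h1 : δ < 1 / 4) {ε : ℝ} (hε : 0 < ε) (C₀ C₁ : ℝ) :
    ∃ N₀ : ℕ, ∀ n : ℕ, N₀ ≤ n → ∀ q : ℕ, 1 ≤ q → ∀ (A : ℕ) (a : ℕ → ℝ),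
      (∀ k, a k ≠ 0 → smooth (zz n) k ∧ k ≤ A ∧ k.Coprime q) → cnC q (zz n) A a ≤ C₀ →
      ∀ h : ℕ → ℝ, (∀ m, 0 ≤ h m ∧ h m ≤ 1 ∧ h m * m ^ 2 ≤ C₁ * n) →
        Summable (fun m : ℕ => if m.Coprime q then
          WW (QA (MM δ n) 2 A) (wAC q (zz n) (MM δ n) 2 A a) m ^ 2 * h m / m else 0) ∧
        ∑' m : ℕ, (if m.Coprime q then
          WW (QA (MM δ n) 2 A) (wAC q (zz n) (MM δ n) 2 A a) m ^ 2 * h m / m else 0) ≤
          (1 / 2 + 1 / (1 - 2 * δ)) * cnC q (zz n) A a + ε :=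
  tj_main h0 h1 hε C₀ C₁

end Pool.Agent.TK
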